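import Mathlib
import Pool.Agent.Helper11.AAQuantities

/-!
Functions computed by trees with low-degree polynomial branching probabilities.
-/

namespace Pool.Agent.Helper94.HT

open Pool.Agent.Helper11.AA

/-- `TreeFn n r k f`: the function `f` on `{-1,1}^n` is the expected leaf value of a rooted tree of
depth `k` in which an inner node has finitely many children, the walk moves to child `m` with
probability `q m x` (`x` the input), the `q m` are nonnegative on the cube, sum to `1` and have
degree at most `r`, and leaves carry constants in `[-1,1]`. -/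
inductive TreeFn (n r : ℕ) : ℕ → ((Fin n → ℤˣ) → ℝ) → Prop
  | leaf (c : ℝ) (hc : |c| ≤ 1) : TreeFn n r 0 (fun _ => c)
  | node (k M : ℕ) (q N : Fin M → (Fin n → ℤˣ) → ℝ)
      (hq0 : ∀ m x, 0 ≤ q m x) (hq1 : ∀ x, ∑ m, q m x = 1)
      (hdeg : ∀ m, DegreeAtMost (q m) r) (hN : ∀ m, TreeFn n r k (N m)) :
      TreeFn n r (k + 1) (fun x => ∑ m, q m x * N m x)

end Pool.Agent.Helper94.HT
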