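import Mathlib
import Pool.Agent.Helper37.HT.COND
import Pool.Agent.Helper37.HT.HYP
import Pool.Agent.Helper4.HT.HEAVY
import Pool.Agent.Helper62.HT.TRIP
import Pool.Agent.Helper90.HT.EXT
import Pool.Agent.Helper82.HT.TWO
import Pool.Agent.Helper90.HT.ONE
import Pool.Agent.Helper11.Degree

/-!
One level of the tree.
-/

set_option linter.dupNamespace false

namespace Pool.Agent.Helper94.HT

open Finset Pool.Agent.Helper11.Cube Pool.Agent.Helper11.AA Pool.Agent.Helper24.QR

lemma abs_ex_mul_le {n : ℕ} (f g : Cube n → ℝ) :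
    |ex (fun x => f x * g x)| ≤ Real.sqrt (ex (fun x => f x ^ 2)) * Real.sqrt (ex (fun x => g x ^ 2)) := by
  rw [← Real.sqrt_mul (ex_nonneg fun x => sq_nonneg _), ← Real.sqrt_sq_eq_abs]
  exact Real.sqrt_le_sqrt (cauchy_schwarz f g)

lemma cond_mix_of_subset {n : ℕ} {H K : Finset (Fin n)} (hHK : H ⊆ K) (q : Cube n → ℝ)
    (w y : Cube n) : cond H q (mix K w y) = cond H q w := by
  unfold Pool.Agent.Helper24.QR.cond
  refine ex_congr fun z => ?_
  congr 1
  funext i
  by_cases hi : i ∈ H
  · simp [mix, hi, hHK hi]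
  · simp [mix, hi]

/-- the splitting for a fixed sharing pattern and a fixed child -/
lemma split_pattern {n : ℕ} (g q N : Cube n → ℝ) (A B H K : Finset (Fin n)) (hHK : H ⊆ K) :
    ex (fun w => ex (fun y => cond (A ∪ B) g (mix A w y) * (q (mix K w y) - cond H q (mix K w y))
        * N w))
      = ex (fun w => ex (fun y => (cond (A ∪ B) g (mix A w y) - cond A g w)
          * q (mix K w y) * N w))
        + ex (fun w => cond A g w * (cond K q w - cond H q w) * N w) := by
  rw [← ex_add]
  refine ex_congr fun w => ?_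
  have h1 : ex (fun y => cond (A ∪ B) g (mix A w y)) = cond A g w := by
    have := cond_cond A (A ∪ B) g w
    rw [inter_eq_left.mpr subset_union_left] at this
    exact this
  have h2 : ex (fun y => q (mix K w y)) = cond K q w := rfl
  have e1 : ex (fun y => cond (A ∪ B) g (mix A w y) * (q (mix K w y) - cond H q (mix K w y)) * N w)
      = ex (fun y => (cond (A ∪ B) g (mix A w y) - cond A g w) * q (mix K w y) * N w)
        + ex (fun y => (cond A g w * N w) * q (mix K w y))
        - ex (fun y => (cond H q w * N w) * cond (A ∪ B) g (mix A w y)) := by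
    rw [← ex_add, ← ex_sub]
    refine ex_congr fun y => ?_
    rw [cond_mix_of_subset hHK]
    ring
  rw [e1, ex_const_mul, ex_const_mul, h1, h2]
  ring

lemma sum_ex_eq_one {n M : ℕ} {q : Fin M → Cube n → ℝ} (hq1 : ∀ x, ∑ m, q m x = 1) :
    ∑ m, ex (q m) = 1 := by
  rw [← ex_sum]
  rw [ex_congr hq1, ex_const]

/-- the bound for a fixed sharing pattern -/
lemma pattern_le {n r D M : ℕ} (q N : Fin M → Cube n → ℝ) (hq0 : ∀ m x, 0 ≤ q m x)
    (hq1 : ∀ x, ∑ m, q m x = 1) (hdeg : ∀ m, DegLE (q m) r) (hN : ∀ m x, |N m x| ≤ 1)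
    (hND : ∀ m, DegLE (N m) D)
    {g : Cube n → ℝ} {Mg V : ℝ} (hMg0 : 0 ≤ Mg)
    (hMg : ∀ v, ex (fun x => discreteDeriv v g x ^ 2) ≤ Mg ^ 2)
    (hV : ∀ m (K : Finset (Fin n)) (z : Cube n), |ex (fun x => g x * N m (mix K z x))| ≤ V)
    {η h : ℝ} (hη : 0 < η) (hh : h = r * 9 ^ r / η ^ 4)
    (T₀ T₂ T₃ : Finset (Fin n)) (h02 : Disjoint T₀ T₂) (h03 : Disjoint T₀ T₃)
    (h23 : Disjoint T₂ T₃) :
    |∑ i : Fin M × Finset (Fin n) × Finset (Fin n),
        if i.2.1 \ i.2.2 ⊆ T₀ ∧ i.2.1 ∩ i.2.2 ⊆ T₂ ∧ (i.2.2 \ i.2.1) \ heavySet η (q i.1) ⊆ T₃ then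
          coef (cond (univ \ heavySet η (q i.1)) g) i.2.1
            * coef (fun x => q i.1 x - cond (heavySet η (q i.1)) (q i.1) x) i.2.2
            * coef (N i.1) (symmDiff i.2.1 i.2.2) else 0|
      ≤ (h + 1) ^ r * (192 * (2 * r) ^ 2 * 3 ^ (2 * r) + Real.sqrt h * 3 ^ r) * Mg
        + 2 * D ^ 2 * (3 ^ r * (r + 1) * η) * V := by
  rw [Fintype.sum_prod_type]
  have key : ∀ m : Fin M, ∑ p : Finset (Fin n) × Finset (Fin n),
      (if p.1 \ p.2 ⊆ T₀ ∧ p.1 ∩ p.2 ⊆ T₂ ∧ (p.2 \ p.1) \ heavySet η (q m) ⊆ T₃ then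
          coef (cond (univ \ heavySet η (q m)) g) p.1
            * coef (fun x => q m x - cond (heavySet η (q m)) (q m) x) p.2
            * coef (N m) (symmDiff p.1 p.2) else 0)
      = ex (fun w => ex (fun y => (cond (T₀ \ heavySet η (q m) ∪ T₂ \ heavySet η (q m)) g
            (mix (T₀ \ heavySet η (q m)) w y) - cond (T₀ \ heavySet η (q m)) g w)
          * q m (mix (T₃ ∪ heavySet η (q m)) w y) * N m w))
        + ex (fun w => cond (T₀ \ heavySet η (q m)) g w *
          (cond (T₃ ∪ heavySet η (q m)) (q m) w - cond (heavySet η (q m)) (q m) w) * N m w) := by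
    intro m
    set H := heavySet η (q m) with hH
    have hA : Disjoint (T₀ \ H) (T₂ \ H) :=
      disjoint_of_subset_left sdiff_subset (disjoint_of_subset_right sdiff_subset h02)
    have hK1 : Disjoint (T₀ \ H) (T₃ ∪ H) := by
      rw [disjoint_union_right]
      exact ⟨disjoint_of_subset_left sdiff_subset h03, sdiff_disjoint⟩
    have hK2 : Disjoint (T₂ \ H) (T₃ ∪ H) := by
      rw [disjoint_union_right]
      exact ⟨disjoint_of_subset_left sdiff_subset h23, sdiff_disjoint⟩
    rw [← split_pattern g (q m) (N m) (T₀ \ H) (T₂ \ H) H (T₃ ∪ H) subset_union_right]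
    rw [trip g (fun x => q m x - cond H (q m) x) (N m) (T₀ \ H) (T₂ \ H) (T₃ ∪ H) hA hK1 hK2]
    rw [Fintype.sum_prod_type]
    refine sum_congr rfl fun S _ => sum_congr rfl fun U _ => ?_
    rw [coef_cond]
    by_cases hS : S ⊆ univ \ H
    · rw [if_pos hS]
      have hSH : ∀ i ∈ S, i ∉ H := fun i hi => by simpa using hS hi
      have e : (S \ U ⊆ T₀ ∧ S ∩ U ⊆ T₂ ∧ (U \ S) \ H ⊆ T₃)
          ↔ (S \ U ⊆ T₀ \ H ∧ S ∩ U ⊆ T₂ \ H ∧ U \ S ⊆ T₃ ∪ H) := by
        constructor
        · rintro ⟨h1, h2, h3⟩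
          refine ⟨fun i hi => ?_, fun i hi => ?_, fun i hi => ?_⟩
          · exact mem_sdiff.mpr ⟨h1 hi, hSH i (mem_sdiff.mp hi).1⟩
          · exact mem_sdiff.mpr ⟨h2 hi, hSH i (mem_inter.mp hi).1⟩
          · by_cases hiH : i ∈ H
            · exact mem_union_right _ hiH
            · exact mem_union_left _ (h3 (mem_sdiff.mpr ⟨hi, hiH⟩))
        · rintro ⟨h1, h2, h3⟩
          refine ⟨h1.trans sdiff_subset, h2.trans sdiff_subset, fun i hi => ?_⟩
          have := h3 (mem_sdiff.mp hi).1
          rcases mem_union.mp this with h4 | h4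
          · exact h4
          · exact absurd h4 (mem_sdiff.mp hi).2
      simp only [e]
    · rw [if_neg hS]
      have : ¬ (S \ U ⊆ T₀ \ H ∧ S ∩ U ⊆ T₂ \ H ∧ U \ S ⊆ T₃ ∪ H) := by
        rintro ⟨h1, h2, _⟩
        apply hS
        intro i hi
        by_cases hU : i ∈ U
        · have := h2 (mem_inter.mpr ⟨hi, hU⟩)
          simpa using (mem_sdiff.mp this).2
        · have := h1 (mem_sdiff.mpr ⟨hi, hU⟩)
          simpa using (mem_sdiff.mp this).2
      rw [if_neg this]
      simp
  rw [sum_congr rfl fun m _ => key m, sum_add_distrib]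
  refine (abs_add_le _ _).trans (add_le_add ?_ ?_)
  · refine partOne q N hq0 hq1 hdeg hN hMg0 hMg (fun m => heavySet η (q m)) h (fun m => ?_)
      T₀ T₂ T₃ h02 h03 h23
    rw [hh]
    exact heavy_card (hq0 m) (hdeg m) hη
  · refine (abs_sum_le_sum_abs _ _).trans ?_
    have hV0 : ∀ m : Fin M, 0 ≤ V := fun m => (abs_nonneg _).trans (hV m ∅ (fun _ => 1))
    have h1 : ∀ m : Fin M, |ex (fun w => cond (T₀ \ heavySet η (q m)) g w *
          (cond (T₃ ∪ heavySet η (q m)) (q m) w - cond (heavySet η (q m)) (q m) w) * N m w)|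
        ≤ 2 * D ^ 2 * (3 ^ r * (r + 1) * η) * V * ex (q m) := by
      intro m
      obtain ⟨s, hs0, hs1, hs2⟩ := heavy_sup (hq0 m) (hdeg m) hη
      have hd : Disjoint (T₀ \ heavySet η (q m)) (T₃ ∪ heavySet η (q m)) := by
        rw [disjoint_union_right]
        exact ⟨disjoint_of_subset_left sdiff_subset h03, sdiff_disjoint⟩
      refine (partTwo (hND m) (hV m) (heavySet η (q m)) (T₀ \ heavySet η (q m))
        (T₃ ∪ heavySet η (q m)) subset_union_right hd s hs0 hs1).trans ?_
      have := mul_le_mul_of_nonneg_left hs2 (by have := hV0 m; positivity : 0 ≤ 2 * (D : ℝ) ^ 2 * V)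
      linarith
    refine (sum_le_sum fun m _ => h1 m).trans (le_of_eq ?_)
    rw [← mul_sum, sum_ex_eq_one hq1, mul_one]

theorem stage' {n r D M : ℕ} (q N : Fin M → Cube n → ℝ) (hq0 : ∀ m x, 0 ≤ q m x)
    (hq1 : ∀ x, ∑ m, q m x = 1) (hdeg : ∀ m, DegLE (q m) r) (hN : ∀ m x, |N m x| ≤ 1)
    (hND : ∀ m, DegLE (N m) D)
    {g : Cube n → ℝ} {Mg V : ℝ} (hMg0 : 0 ≤ Mg)
    (hMg : ∀ v, ex (fun x => discreteDeriv v g x ^ 2) ≤ Mg ^ 2)
    (hV : ∀ m (K : Finset (Fin n)) (z : Cube n), |ex (fun x => g x * N m (mix K z x))| ≤ V)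
    {η h : ℝ} (hη : 0 < η) (hh : h = r * 9 ^ r / η ^ 4) :
    |ex (fun x => g x * ∑ m, q m x * N m x)|
      ≤ (1 + Kext r D * (2 * D ^ 2 * (3 ^ r * (r + 1) * η))) * V
        + (Real.sqrt h * 3 ^ r + Kext r D * ((h + 1) ^ r *
          (192 * (2 * r) ^ 2 * 3 ^ (2 * r) + Real.sqrt h * 3 ^ r))) * Mg := by
  have hh0 : 0 ≤ h := by rw [hh]; positivity
  -- decomposition
  have hdec : ex (fun x => g x * ∑ m, q m x * N m x)
      = ∑ m, ex (fun x => (g x - cond (univ \ heavySet η (q m)) g x) * (q m x * N m x))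
        + ∑ m, ex (fun w => cond (univ \ heavySet η (q m)) g w * cond (heavySet η (q m)) (q m) w
            * N m w)
        + ∑ m, ex (fun x => cond (univ \ heavySet η (q m)) g x *
            (q m x - cond (heavySet η (q m)) (q m) x) * N m x) := by
    rw [← ex_sum, ← ex_sum, ← ex_sum, ← ex_add, ← ex_add]
    refine ex_congr fun x => ?_
    rw [mul_sum, ← sum_add_distrib, ← sum_add_distrib]
    refine sum_congr rfl fun m _ => ?_
    ring
  have h1 : |∑ m, ex (fun x => (g x - cond (univ \ heavySet η (q m)) g x) * (q m x * N m x))|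
      ≤ Real.sqrt h * 3 ^ r * Mg := by
    refine (abs_sum_le_sum_abs _ _).trans ?_
    have h2 : ∀ m, |ex (fun x => (g x - cond (univ \ heavySet η (q m)) g x) * (q m x * N m x))|
        ≤ Real.sqrt h * 3 ^ r * Mg * ex (q m) := by
      intro m
      refine (abs_ex_mul_le _ _).trans ?_
      have e1 : Real.sqrt (ex (fun x => (g x - cond (univ \ heavySet η (q m)) g x) ^ 2))
          ≤ Real.sqrt h * Mg := by
        have : ex (fun x => (g x - cond (univ \ heavySet η (q m)) g x) ^ 2) ≤ h * Mg ^ 2 := by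
          refine (ex_sub_cond_sq_le _ g).trans ?_
          refine (sum_le_card_nsmul _ _ (Mg ^ 2) fun v _ => hMg v).trans ?_
          rw [nsmul_eq_mul]
          refine mul_le_mul_of_nonneg_right ?_ (sq_nonneg _)
          have e3 : (univ \ (univ \ heavySet η (q m))) = heavySet η (q m) := by
            ext i; simp
          rw [e3, hh]
          exact heavy_card (hq0 m) (hdeg m) hη
        refine (Real.sqrt_le_sqrt this).trans (le_of_eq ?_)
        rw [Real.sqrt_mul hh0, Real.sqrt_sq hMg0]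
      have e2 : Real.sqrt (ex (fun x => (q m x * N m x) ^ 2)) ≤ 3 ^ r * ex (q m) := by
        have hE : 0 ≤ ex (q m) := ex_nonneg (hq0 m)
        have : ex (fun x => (q m x * N m x) ^ 2) ≤ (3 ^ r * ex (q m)) ^ 2 := by
          calc ex (fun x => (q m x * N m x) ^ 2) ≤ ex (fun x => q m x ^ 2) := by
                refine ex_mono fun x => ?_
                rw [mul_pow]
                have h4 : N m x ^ 2 ≤ 1 := by
                  rw [← sq_abs]; exact pow_le_one₀ (abs_nonneg _) (hN m x)
                nlinarith [sq_nonneg (q m x)]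
            _ ≤ 9 ^ r * ex (fun x => |q m x|) ^ 2 := l2_le_l1 (hdeg m)
            _ = (3 ^ r * ex (q m)) ^ 2 := by
                rw [ex_congr fun x => abs_of_nonneg (hq0 m x)]
                rw [mul_pow, ← pow_mul, mul_comm r 2, pow_mul]
                norm_num
        refine (Real.sqrt_le_sqrt this).trans (le_of_eq ?_)
        rw [Real.sqrt_sq (by positivity)]
      calc _ ≤ (Real.sqrt h * Mg) * (3 ^ r * ex (q m)) := by
            refine mul_le_mul e1 e2 (Real.sqrt_nonneg _) (by positivity)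
        _ = _ := by ring
    refine (sum_le_sum fun m _ => h2 m).trans (le_of_eq ?_)
    rw [← mul_sum, sum_ex_eq_one hq1, mul_one]
  have h2 : |∑ m, ex (fun w => cond (univ \ heavySet η (q m)) g w * cond (heavySet η (q m)) (q m) w
            * N m w)| ≤ V := by
    refine (abs_sum_le_sum_abs _ _).trans ?_
    refine (sum_le_sum fun m _ => partBase (hq0 m) (hV m) (heavySet η (q m))).trans (le_of_eq ?_)
    rw [← mul_sum, sum_ex_eq_one hq1, mul_one]
  have h3 : |∑ m, ex (fun x => cond (univ \ heavySet η (q m)) g x *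
            (q m x - cond (heavySet η (q m)) (q m) x) * N m x)|
      ≤ Kext r D * ((h + 1) ^ r * (192 * (2 * r) ^ 2 * 3 ^ (2 * r) + Real.sqrt h * 3 ^ r) * Mg
        + 2 * D ^ 2 * (3 ^ r * (r + 1) * η) * V) := by
    have e : ∑ m, ex (fun x => cond (univ \ heavySet η (q m)) g x *
            (q m x - cond (heavySet η (q m)) (q m) x) * N m x)
        = ∑ i : Fin M × Finset (Fin n) × Finset (Fin n),
          coef (cond (univ \ heavySet η (q i.1)) g) i.2.1
            * coef (fun x => q i.1 x - cond (heavySet η (q i.1)) (q i.1) x) i.2.2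
            * coef (N i.1) (symmDiff i.2.1 i.2.2) := by
      rw [Fintype.sum_prod_type]
      refine sum_congr rfl fun m _ => ?_
      rw [Fintype.sum_prod_type]
      exact ex_triple _ _ _
    rw [e]
    refine ext (n := n) (D := D) (r := r) _ (fun i => i.2.1 \ i.2.2) (fun i => i.2.1 ∩ i.2.2)
      (fun i => (i.2.2 \ i.2.1) \ heavySet η (q i.1)) ?_ ?_ ?_ ?_ ?_ _ ?_
    · intro i
      rw [disjoint_left]
      intro a ha hb
      exact (mem_sdiff.mp ha).2 (mem_inter.mp hb).2
    · intro i
      rw [disjoint_left]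
      intro a ha hb
      exact (mem_sdiff.mp ha).2 (mem_sdiff.mp (mem_sdiff.mp hb).1).1
    · intro i
      rw [disjoint_left]
      intro a ha hb
      exact (mem_sdiff.mp (mem_sdiff.mp hb).1).2 (mem_inter.mp ha).1
    · intro i hi
      by_contra hcon
      push Not at hcon
      apply hi
      have : coef (N i.1) (symmDiff i.2.1 i.2.2) = 0 := by
        apply hND
        refine hcon.trans_le (card_le_card ?_)
        intro a ha
        rw [mem_symmDiff]
        exact Or.inl (mem_sdiff.mp ha)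
      rw [this, mul_zero]
    · intro i hi
      by_contra hcon
      push Not at hcon
      apply hi
      have hb : DegLE (fun x => q i.1 x - cond (heavySet η (q i.1)) (q i.1) x) r := by
        have := degLE_add (hdeg i.1) (degLE_const_mul (-1) (degLE_cond (hdeg i.1)
          (heavySet η (q i.1))))
        have e5 : (fun x => q i.1 x - cond (heavySet η (q i.1)) (q i.1) x)
            = fun x => q i.1 x + -1 * cond (heavySet η (q i.1)) (q i.1) x := by
          funext x; ring
        rw [e5]; exact this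
      have : coef (fun x => q i.1 x - cond (heavySet η (q i.1)) (q i.1) x) i.2.2 = 0 := by
        apply hb
        refine hcon.trans_le ?_
        rw [← card_union_of_disjoint]
        · refine card_le_card ?_
          intro a ha
          rcases mem_union.mp ha with h | h
          · exact (mem_inter.mp h).2
          · exact (mem_sdiff.mp (mem_sdiff.mp h).1).1
        · rw [disjoint_left]
          intro a ha hb
          exact (mem_sdiff.mp (mem_sdiff.mp hb).1).2 (mem_inter.mp ha).1
      rw [this, mul_zero, zero_mul]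
    · intro T₀ T₂ T₃ h02 h03 h23
      exact pattern_le q N hq0 hq1 hdeg hN hND hMg0 hMg hV hη hh T₀ T₂ T₃ h02 h03 h23
  rw [hdec]
  refine (abs_add_le _ _).trans ?_
  refine (add_le_add ((abs_add_le _ _).trans (add_le_add h1 h2)) h3).trans (le_of_eq ?_)
  ring

end Pool.Agent.Helper94.HT
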