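import Mathlib
import Pool.Agent.Helper94.HT.Stage
import Pool.Agent.Helper37.HT.TREE

/-!
The recursion over the depth of the tree and the final constant.
-/

set_option linter.dupNamespace false

namespace Pool.Agent.Helper94.HT

open Finset Pool.Agent.Helper11.Cube Pool.Agent.Helper11.AA Pool.Agent.Helper24.QR

/-- the coefficient of `M(g)` in the stage inequality -/
noncomputable def Acoef (r D : ℕ) (h : ℝ) : ℝ :=
  Real.sqrt h * 3 ^ r + Kext r D * ((h + 1) ^ r *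
          (192 * (2 * r) ^ 2 * 3 ^ (2 * r) + Real.sqrt h * 3 ^ r))

lemma recursion {n r k : ℕ} (hk : 1 ≤ k) {g : Cube n → ℝ} {Mg : ℝ} (hMg0 : 0 ≤ Mg)
    (hMg : ∀ v, ex (fun x => discreteDeriv v g x ^ 2) ≤ Mg ^ 2) (hg : ex g = 0)
    {η h : ℝ} (hη : 0 < η) (hh : h = r * 9 ^ r / η ^ 4)
    (hη2 : Kext r (k * r) * (2 * ((k * r : ℕ) : ℝ) ^ 2 * (3 ^ r * (r + 1) * η)) ≤ 1 / k) :
    ∀ j, j ≤ k → ∀ f : Cube n → ℝ, TreeFn n r j f →
      |ex (fun x => g x * f x)| ≤ k * ((1 + 1 / k) ^ j - 1) * (Acoef r (k * r) h * Mg) := by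
  have hk0 : (0 : ℝ) < k := by exact_mod_cast hk
  intro j
  induction j with
  | zero =>
    intro _ f hf
    cases hf with
    | leaf c hc =>
      have : ex (fun x => g x * c) = 0 := by rw [ex_mul_const, hg, zero_mul]
      rw [this]
      simp
  | succ j ih =>
    intro hj f hf
    cases hf with
    | node _ M q N hq0 hq1 hdeg hN =>
      have hstage := stage' (D := k * r) q N hq0 hq1 (fun m => (degreeAtMost_iff _ _).mp (hdeg m))
        (fun m => (hN m).abs_le)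
        (fun m => degLE_mono (hN m).degLE (Nat.mul_le_mul_right r (by omega))) hMg0 hMg
        (V := k * ((1 + 1 / k) ^ j - 1) * (Acoef r (k * r) h * Mg))
        (fun m K z => ih (by omega) _ ((hN m).mix K z)) hη hh
      refine hstage.trans ?_
      have hV0 : 0 ≤ (k : ℝ) * ((1 + 1 / k) ^ j - 1) * (Acoef r (k * r) h * Mg) := by
        have h1 : (1 : ℝ) ≤ (1 + 1 / k) ^ j := one_le_pow₀ (by
          have : (0 : ℝ) ≤ 1 / k := by positivity
          linarith)
        have hh0 : 0 ≤ h := by rw [hh]; positivity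
        have h2 : 0 ≤ Acoef r (k * r) h := by unfold Acoef Kext; positivity
        have h3 : 0 ≤ (1 + 1 / (k : ℝ)) ^ j - 1 := by linarith
        positivity
      have h4 := mul_le_mul_of_nonneg_right hη2 hV0
      have e : (k : ℝ) * ((1 + 1 / k) ^ (j + 1) - 1) * (Acoef r (k * r) h * Mg)
          = (1 + 1 / k) * (k * ((1 + 1 / k) ^ j - 1) * (Acoef r (k * r) h * Mg))
            + Acoef r (k * r) h * Mg := by
        have hkk : (k : ℝ) * (1 / k) = 1 := by field_simp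
        rw [pow_succ]
        linear_combination (Acoef r (k * r) h * Mg) * hkk
      rw [e]
      unfold Acoef at h4 ⊢
      linarith

lemma one_add_pow_le (k : ℕ) (hk : 1 ≤ k) : (1 + 1 / (k : ℝ)) ^ k ≤ 3 := by
  have hk0 : (0 : ℝ) < k := by exact_mod_cast hk
  have h1 : 1 + 1 / (k : ℝ) ≤ Real.exp (1 / k) := by
    have := Real.add_one_le_exp (1 / (k : ℝ))
    linarith
  calc (1 + 1 / (k : ℝ)) ^ k ≤ Real.exp (1 / k) ^ k := pow_le_pow_left₀ (by positivity) h1 k
    _ = Real.exp 1 := by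
        rw [← Real.exp_nat_mul]
        congr 1
        field_simp
    _ ≤ 3 := by
        have := Real.exp_one_lt_d9
        linarith

/-- the explicit bound -/
lemma const_bound {r k : ℕ} (hr : 1 ≤ r) (hk : 1 ≤ k) {η h : ℝ}
    (hη : η = 1 / (k * (Kext r (k * r) * (2 * ((k * r : ℕ) : ℝ) ^ 2 * (3 ^ r * (r + 1))))))
    (hh : h = r * 9 ^ r / η ^ 4) :
    2 * k * Acoef r (k * r) h ≤ (100 * k * r : ℝ) ^ (100 * r ^ 2) := by
  have hr1 : (1 : ℝ) ≤ r := by exact_mod_cast hr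
  have hk1 : (1 : ℝ) ≤ k := by exact_mod_cast hk
  set b : ℝ := 100 * k * r with hb
  have hkr : (1 : ℝ) ≤ (k : ℝ) * r := by nlinarith
  have hb100 : 100 ≤ b := by rw [hb]; nlinarith
  have hb1 : 1 ≤ b := by linarith
  have hb0 : 0 < b := by linarith
  have hkb : (k : ℝ) ≤ b := by rw [hb]; nlinarith
  have hrb : (r : ℝ) ≤ b := by rw [hb]; nlinarith
  have hmono : ∀ {i j : ℕ}, i ≤ j → b ^ i ≤ b ^ j := fun h => pow_le_pow_right₀ hb1 h
  -- Kext
  have hK0 : 0 < Kext r (k * r) := by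
    unfold Kext
    push_cast
    positivity
  have hD : ((k * r : ℕ) : ℝ) + 1 ≤ 2 * (k * r) := by push_cast; linarith
  have hKext : Kext r (k * r) ≤ b ^ (3 * r + 1) := by
    unfold Kext
    have h1 : 16 * (r : ℝ) * (((k * r : ℕ) : ℝ) + 1) ^ 2 ≤ b ^ 3 := by
      have h2 : (((k * r : ℕ) : ℝ) + 1) ^ 2 ≤ (2 * (k * r)) ^ 2 :=
        pow_le_pow_left₀ (by positivity) hD 2
      calc 16 * (r : ℝ) * (((k * r : ℕ) : ℝ) + 1) ^ 2 ≤ 16 * r * (2 * (k * r)) ^ 2 :=
            mul_le_mul_of_nonneg_left h2 (by positivity)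
        _ = 64 * (k * r) ^ 2 * r * 1 := by ring
        _ ≤ 64 * (k * r) ^ 2 * r * k := by
            refine mul_le_mul_of_nonneg_left hk1 (by positivity)
        _ ≤ 1000000 * ((k * r) ^ 2 * r * k) := by
            have : 0 ≤ ((k : ℝ) * r) ^ 2 * r * k := by positivity
            linarith
        _ = b ^ 3 := by rw [hb]; ring
    have h3 : 2 * ((r : ℝ) + 1) ≤ b := by rw [hb]; nlinarith
    calc 2 * ((r : ℝ) + 1) * (16 * r * (((k * r : ℕ) : ℝ) + 1) ^ 2) ^ r
        ≤ b * (b ^ 3) ^ r := by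
          refine mul_le_mul h3 (pow_le_pow_left₀ (by positivity) h1 r) (by positivity) hb0.le
      _ = b ^ (3 * r + 1) := by rw [← pow_mul, pow_succ]; ring
  -- 1 / η
  have h3b : (3 : ℝ) ^ r ≤ b ^ r := pow_le_pow_left₀ (by norm_num) (by linarith) r
  have h9b : (9 : ℝ) ^ r ≤ b ^ r := pow_le_pow_left₀ (by norm_num) (by linarith) r
  have hηinv : 1 / η ≤ b ^ (4 * r + 5) := by
    rw [hη, one_div_one_div]
    have h1 : 2 * ((k * r : ℕ) : ℝ) ^ 2 ≤ b ^ 2 := by
      rw [hb]; push_cast; nlinarith [sq_nonneg ((k : ℝ) * r)]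
    have h2 : (r : ℝ) + 1 ≤ b := by rw [hb]; nlinarith
    calc (k : ℝ) * (Kext r (k * r) * (2 * ((k * r : ℕ) : ℝ) ^ 2 * (3 ^ r * (r + 1))))
        ≤ b * (b ^ (3 * r + 1) * (b ^ 2 * (b ^ r * b))) := by gcongr
      _ = b ^ (4 * r + 5) := by rw [← pow_succ, ← pow_add, ← pow_add, ← pow_succ']; congr 1; ring
  have hη0 : 0 < η := by rw [hη]; positivity
  have hh0 : 0 ≤ h := by rw [hh]; positivity
  have hhb : h ≤ b ^ (17 * r + 21) := by
    have e : h = r * 9 ^ r * (1 / η) ^ 4 := by rw [hh, one_div, inv_pow]; rfl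
    rw [e]
    calc (r : ℝ) * 9 ^ r * (1 / η) ^ 4 ≤ b * b ^ r * (b ^ (4 * r + 5)) ^ 4 := by gcongr
      _ = b ^ (17 * r + 21) := by rw [← pow_succ', ← pow_mul, ← pow_add]; congr 1; ring
  have hh1 : h + 1 ≤ b ^ (17 * r + 22) := by
    have h1 : (1 : ℝ) ≤ b ^ (17 * r + 21) := one_le_pow₀ hb1
    calc h + 1 ≤ b ^ (17 * r + 21) + b ^ (17 * r + 21) := add_le_add hhb h1
      _ = 2 * b ^ (17 * r + 21) := by ring
      _ ≤ b * b ^ (17 * r + 21) := by gcongr; linarith
      _ = b ^ (17 * r + 22) := by rw [← pow_succ']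
  have hsq : Real.sqrt h ≤ b ^ (17 * r + 22) := by
    refine le_trans ?_ hh1
    rw [Real.sqrt_le_left (by linarith)]
    nlinarith
  have h192 : 192 * (2 * (r : ℝ)) ^ 2 * 3 ^ (2 * r) ≤ b ^ (18 * r + 22) := by
    have h1 : 192 * (2 * (r : ℝ)) ^ 2 ≤ b ^ 2 := by
      have : (r : ℝ) ^ 2 ≤ (k * r) ^ 2 := pow_le_pow_left₀ (by positivity) (by nlinarith) 2
      rw [hb]
      nlinarith
    have h2 : (3 : ℝ) ^ (2 * r) ≤ b ^ r := by rw [pow_mul]; norm_num; exact h9b
    calc 192 * (2 * (r : ℝ)) ^ 2 * 3 ^ (2 * r) ≤ b ^ 2 * b ^ r := by gcongr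
      _ = b ^ (2 + r) := by rw [← pow_add]
      _ ≤ b ^ (18 * r + 22) := hmono (by omega)
  have hs3 : Real.sqrt h * 3 ^ r ≤ b ^ (18 * r + 22) := by
    calc Real.sqrt h * 3 ^ r ≤ b ^ (17 * r + 22) * b ^ r := by gcongr
      _ = b ^ (18 * r + 22) := by rw [← pow_add]; congr 1; ring
  have hpow : (h + 1) ^ r ≤ b ^ (17 * r ^ 2 + 22 * r) := by
    calc (h + 1) ^ r ≤ (b ^ (17 * r + 22)) ^ r := pow_le_pow_left₀ (by linarith) hh1 r
      _ = b ^ (17 * r ^ 2 + 22 * r) := by rw [← pow_mul]; congr 1; ring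
  have hA : Acoef r (k * r) h ≤ b ^ (17 * r ^ 2 + 43 * r + 25) := by
    unfold Acoef
    calc Real.sqrt h * 3 ^ r + Kext r (k * r) * ((h + 1) ^ r *
          (192 * (2 * r) ^ 2 * 3 ^ (2 * r) + Real.sqrt h * 3 ^ r))
        ≤ b ^ (18 * r + 22) + b ^ (3 * r + 1) * (b ^ (17 * r ^ 2 + 22 * r) *
          (b ^ (18 * r + 22) + b ^ (18 * r + 22))) := by gcongr
      _ = b ^ (18 * r + 22) + 2 * b ^ (17 * r ^ 2 + 43 * r + 23) := by
          have : b ^ (17 * r ^ 2 + 43 * r + 23)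
              = b ^ (3 * r + 1) * (b ^ (17 * r ^ 2 + 22 * r) * b ^ (18 * r + 22)) := by
            rw [← pow_add, ← pow_add]; congr 1; ring
          rw [this]; ring
      _ ≤ b ^ (17 * r ^ 2 + 43 * r + 23) + 2 * b ^ (17 * r ^ 2 + 43 * r + 23) := by
          gcongr ?_ + _
          exact hmono (by nlinarith)
      _ = 3 * b ^ (17 * r ^ 2 + 43 * r + 23) := by ring
      _ ≤ b ^ 2 * b ^ (17 * r ^ 2 + 43 * r + 23) := by gcongr; nlinarith
      _ = b ^ (17 * r ^ 2 + 43 * r + 25) := by rw [← pow_add]; congr 1; ring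
  have hA0 : 0 ≤ Acoef r (k * r) h := by unfold Acoef; positivity
  calc 2 * k * Acoef r (k * r) h ≤ b * b ^ (17 * r ^ 2 + 43 * r + 25) := by
        refine mul_le_mul ?_ hA hA0 hb0.le
        rw [hb]; nlinarith
    _ = b ^ (17 * r ^ 2 + 43 * r + 26) := by rw [← pow_succ']
    _ ≤ b ^ (100 * r ^ 2) := hmono (by nlinarith)

lemma deriv_sub_const {n : ℕ} (g : Cube n → ℝ) (c : ℝ) (v : Fin n) (x : Cube n) :
    discreteDeriv v (fun x => g x - c) x = discreteDeriv v g x := by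
  unfold discreteDeriv; ring

theorem cov_le' {n r k : ℕ} (hr : 1 ≤ r) (hk : 1 ≤ k) {f : Cube n → ℝ} (hf : TreeFn n r k f)
    (g : Cube n → ℝ) :
    |ex (fun x => f x * g x) - ex f * ex g|
      ≤ (100 * k * r : ℝ) ^ (100 * r ^ 2) * maxDerivNorm g := by
  have hr1 : (1 : ℝ) ≤ r := by exact_mod_cast hr
  have hk1 : (1 : ℝ) ≤ k := by exact_mod_cast hk
  have hK0 : 0 < Kext r (k * r) := by
    unfold Kext
    push_cast
    positivity
  set η : ℝ := 1 / (k * (Kext r (k * r) * (2 * ((k * r : ℕ) : ℝ) ^ 2 * (3 ^ r * (r + 1))))) with hη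
  set h : ℝ := r * 9 ^ r / η ^ 4 with hh
  have hD0 : (0 : ℝ) < ((k * r : ℕ) : ℝ) := by push_cast; positivity
  have hη0 : 0 < η := by rw [hη]; positivity
  have hrec := recursion hk (g := fun x => g x - ex g) (maxDerivNorm_nonneg g) (fun v => by
      rw [ex_congr fun x => by rw [deriv_sub_const], ← derivNorm_sq]
      exact pow_le_pow_left₀ (derivNorm_nonneg g v) (derivNorm_le g v) 2)
    (by rw [ex_sub, ex_const, sub_self]) hη0 hh (le_of_eq (by rw [hη]; field_simp)) k le_rfl f hf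
  have e : ex (fun x => f x * g x) - ex f * ex g = ex (fun x => (g x - ex g) * f x) := by
    rw [ex_congr (f := fun x => (g x - ex g) * f x) (g := fun x => f x * g x - ex g * f x)
      (fun x => by ring), ex_sub, ex_const_mul]
    ring
  rw [e]
  refine hrec.trans ?_
  have h1 := one_add_pow_le k hk
  have h2 := const_bound hr hk hη hh
  have hh0 : 0 ≤ h := by rw [hh]; positivity
  have hA0 : 0 ≤ Acoef r (k * r) h := by unfold Acoef; positivity
  have hM0 := maxDerivNorm_nonneg g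
  calc (k : ℝ) * ((1 + 1 / k) ^ k - 1) * (Acoef r (k * r) h * maxDerivNorm g)
      ≤ k * 2 * (Acoef r (k * r) h * maxDerivNorm g) := by
        refine mul_le_mul_of_nonneg_right ?_ (by positivity)
        refine mul_le_mul_of_nonneg_left (by linarith) (by linarith)
    _ = (2 * k * Acoef r (k * r) h) * maxDerivNorm g := by ring
    _ ≤ _ := mul_le_mul_of_nonneg_right h2 hM0

end Pool.Agent.Helper94.HT
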